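import Pool.Agent.TH427.AM2.All
import Pool.Agent.H361R3.AL.Final

/-!
Every automorphic loop of prime power order greater than one has a nontrivial middle nucleus.
-/

set_option autoImplicit false

universe u

namespace Pool.Agent.Results.MP_20a840_al.AllPrimes

/-- A loop with underlying set `Q`, product `op` and neutral element `e`. -/
structure Loop (Q : Type u) where
  op : Q → Q → Q
  e : Q
  one_op : ∀ x, op e x = x
  op_one : ∀ x, op x e = x
  bijL : ∀ x, Function.Bijective (fun y => op x y)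
  bijR : ∀ x, Function.Bijective (fun y => op y x)

namespace Loop

variable {Q : Type u} (A : Loop Q)

/-- The left translation by `x`. -/
noncomputable def L (x : Q) : Equiv.Perm Q := Equiv.ofBijective _ (A.bijL x)

/-- The right translation by `x`. -/
noncomputable def R (x : Q) : Equiv.Perm Q := Equiv.ofBijective _ (A.bijR x)

/-- The multiplication group, generated by all translations. -/
def Mlt : Subgroup (Equiv.Perm Q) := Subgroup.closure (Set.range A.L ∪ Set.range A.R)

/-- Every inner mapping (every element of the multiplication group that fixes the neutral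
element) is an automorphism. -/
def Automorphic : Prop :=
  ∀ g ∈ A.Mlt, g A.e = A.e → ∀ x y, g (A.op x y) = A.op (g x) (g y)

/-- The middle nucleus. -/
def middleNucleus : Set Q := {a | ∀ x y, A.op (A.op x a) y = A.op x (A.op a y)}

end Loop

open Pool.Agent.H687R3.AL

theorem key {Q : Type u} (A : Loop Q) (hA : A.Automorphic) (P H : Equiv.Perm Q) (hP : P ∈ A.Mlt)
    (hH : H ∈ A.Mlt) (he : P A.e = H A.e) {z₁ z₂ w₁ w₂ : Q} (h1 : P w₁ = H z₁)
    (h2 : P w₂ = H z₂) : P (A.op w₁ w₂) = H (A.op z₁ z₂) := by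
  have e0 : (P⁻¹ * H) A.e = A.e := by rw [Equiv.Perm.mul_apply, ← he]; simp
  have e1 : (P⁻¹ * H) z₁ = w₁ := by rw [Equiv.Perm.mul_apply, ← h1]; simp
  have e2 : (P⁻¹ * H) z₂ = w₂ := by rw [Equiv.Perm.mul_apply, ← h2]; simp
  have h3 := hA _ (A.Mlt.mul_mem (A.Mlt.inv_mem hP) hH) e0 z₁ z₂
  rw [e1, e2] at h3
  rw [← h3]; simp

theorem L_mem {Q : Type u} (A : Loop Q) (x : Q) : A.L x ∈ A.Mlt :=
  Subgroup.subset_closure (Or.inl ⟨x, rfl⟩)

theorem R_mem {Q : Type u} (A : Loop Q) (x : Q) : A.R x ∈ A.Mlt :=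
  Subgroup.subset_closure (Or.inr ⟨x, rfl⟩)

/-- transport to a small type -/
def toAL {Q : Type u} (A : Loop Q) (hA : A.Automorphic) {P : Type} (t : Q ≃ P) : AL P where
  op x y := t (A.op (t.symm x) (t.symm y))
  e := t A.e
  idl x := by rw [t.symm_apply_apply, A.one_op, t.apply_symm_apply]
  idr x := by rw [t.symm_apply_apply, A.op_one, t.apply_symm_apply]
  bijL x := t.bijective.comp ((A.bijL (t.symm x)).comp t.symm.bijective)
  bijR x := t.bijective.comp ((A.bijR (t.symm x)).comp t.symm.bijective)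
  autL := by
    intro x y z₁ z₂ w₁ w₂ h1 h2
    have h1' := t.injective h1
    have h2' := t.injective h2
    simp only [t.symm_apply_apply] at h1' h2' ⊢
    congr 1
    refine key A hA (A.L (A.op (t.symm y) (t.symm x))) (A.L (t.symm y) * A.L (t.symm x))
      (L_mem A _) (A.Mlt.mul_mem (L_mem A _) (L_mem A _)) ?_ h1' h2'
    change A.op (A.op (t.symm y) (t.symm x)) A.e = A.op (t.symm y) (A.op (t.symm x) A.e)
    rw [A.op_one, A.op_one]
  autR := by
    intro x y z₁ z₂ w₁ w₂ h1 h2
    have h1' := t.injective h1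
    have h2' := t.injective h2
    simp only [t.symm_apply_apply] at h1' h2' ⊢
    congr 1
    refine key A hA (A.R (A.op (t.symm x) (t.symm y))) (A.R (t.symm y) * A.R (t.symm x))
      (R_mem A _) (A.Mlt.mul_mem (R_mem A _) (R_mem A _)) ?_ h1' h2'
    change A.op A.e (A.op (t.symm x) (t.symm y)) = A.op (A.op A.e (t.symm x)) (t.symm y)
    rw [A.one_op, A.one_op]
  autT := by
    intro x z₁ z₂ w₁ w₂ h1 h2
    have h1' := t.injective h1
    have h2' := t.injective h2
    simp only [t.symm_apply_apply] at h1' h2' ⊢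
    congr 1
    refine key A hA (A.R (t.symm x)) (A.L (t.symm x)) (R_mem A _) (L_mem A _) ?_ h1' h2'
    change A.op A.e (t.symm x) = A.op (t.symm x) A.e
    rw [A.one_op, A.op_one]

theorem two {k : ℕ} (hk : 1 ≤ k) {Q : Type u} (A : Loop Q) (hA : A.Automorphic)
    (hcard : Nat.card Q = 2 ^ k) : ∃ a ∈ A.middleNucleus, a ≠ A.e := by
  have hfin : Finite Q := Nat.finite_of_card_ne_zero (by rw [hcard]; positivity)
  let t : Q ≃ Fin (Nat.card Q) := Finite.equivFin Q
  obtain ⟨a, ha, h⟩ := Pool.Agent.TH427.AM2.mid_two k hk _ (toAL A hA t)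
    (by rw [Nat.card_fin, hcard])
  refine ⟨t.symm a, fun x y => ?_, fun he => ha ?_⟩
  · have h1 := t.injective (h (t x) (t y))
    change A.op (t.symm (t (A.op (t.symm (t x)) (t.symm a)))) (t.symm (t y)) =
      A.op (t.symm (t x)) (t.symm (t (A.op (t.symm a) (t.symm (t y))))) at h1
    simpa only [t.symm_apply_apply] using h1
  · change a = t A.e
    rw [← he, t.apply_symm_apply]

theorem odd {p k : ℕ} (hp : p.Prime) (hp2 : p ≠ 2) (hk : 1 ≤ k) {Q : Type u} (A : Loop Q)
    (hA : A.Automorphic) (hcard : Nat.card Q = p ^ k) : ∃ a ∈ A.middleNucleus, a ≠ A.e := by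
  let i1 : H361AL.Loop Q :=
    { mul := A.op
      one := A.e
      one_mul' := A.one_op
      mul_one' := A.op_one
      left_div := fun a b => (A.bijL a).existsUnique b
      right_div := fun a b => (A.bijR a).existsUnique b }
  have hle : H361AL.Mlt Q ≤ A.Mlt := by
    rw [H361AL.Mlt, Subgroup.closure_le]
    rintro _ (⟨x, rfl⟩ | ⟨x, rfl⟩)
    · exact L_mem A x
    · exact R_mem A x
  have i2 : H361AL.Automorphic Q := ⟨fun f hf h1 x y => hA f (hle hf) h1 x y⟩
  have hfin : Finite Q := Nat.finite_of_card_ne_zero (by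
    rw [hcard]; exact pow_ne_zero _ hp.ne_zero)
  obtain ⟨a, ha1, ha⟩ := H361AL.main (Q := Q) hp hp2 hcard hk
  exact ⟨a, ha, ha1⟩

/-- Let `p` be any prime and `k ≥ 1`. Every automorphic loop of order `p ^ k` has a middle
nucleus containing an element other than the neutral element. -/
theorem result (p k : ℕ) (hp : p.Prime) (hk : 1 ≤ k) (Q : Type u) (A : Loop Q)
    (hA : A.Automorphic) (hcard : Nat.card Q = p ^ k) : ∃ a ∈ A.middleNucleus, a ≠ A.e := by
  by_cases hp2 : p = 2
  · subst hp2
    exact two hk A hA hcard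
  · exact odd hp hp2 hk A hA hcard

end Pool.Agent.Results.MP_20a840_al.AllPrimes
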